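import Mathlib
import Pool.Agent.helper13.GLOwn.Bridge

/-!
# Globally linked pairs lie in redundantly rigid components

Q1 of the problem, answered YES: if the pair of distinct vertices `x`, `y` is globally linked in
the finite graph `G` (dimension 2), then some redundantly rigid component of `G` (a maximal
redundantly rigid subgraph, or the one-edge subgraph of a bridge of the rigidity matroid)
contains `x` and `y`.

The definitions are in `Pool.Agent.helper13.GLOwn.Def`. A redundantly rigid graph is here in
addition asked to be rigid, as the field means it: otherwise every graph without edges would be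
redundantly rigid. (For graphs with an edge this changes nothing, and the result implies the one
without this condition.)
-/

set_option autoImplicit false

namespace Pool.Agent.Results.MP_3dba9c_co.GloballyLinkedComponents

open Pool.Agent.helper13.GL Pool.Agent.helper13.GLOwn Finset

/-- **Q1.** If `{x,y}` is globally linked in the finite graph `G`, then some redundantly rigid
component `K` of `G` contains `x` and `y`. -/
theorem result : ∀ (V : Type) [Fintype V] (G : SimpleGraph V) (x y : V), x ≠ y →
    GloballyLinked G x y →
    ∃ K : G.Subgraph, RRComponent G K ∧ x ∈ K.verts ∧ y ∈ K.verts := by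
  intro V _ G x y hxy hGL
  classical
  by_cases hadj : G.Adj x y
  · set E : Finset (Finset V) := univ.filter (fun e => ∃ u v, G.Adj u v ∧ e = {u, v}) with hEdef
    have memE : ∀ e, e ∈ E ↔ ∃ u v, G.Adj u v ∧ e = {u, v} := by
      intro e; rw [hEdef, mem_filter]; simp
    have hE : ∀ e ∈ E, e.card = 2 := by
      intro e he
      obtain ⟨u, v, huv, rfl⟩ := (memE e).mp he
      exact card_pair huv.ne
    obtain ⟨F, hF⟩ := exists_opt E hE
    obtain ⟨P, hP, hxyP⟩ := hF.cov.2 {x, y} ((memE _).mpr ⟨x, y, hadj, rfl⟩)
    by_cases h3 : 3 ≤ P.card
    · exact component_of_rrc G (rrc_of_piece G memE hF hP h3) (hxyP (by simp)) (hxyP (by simp)) hxy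
    · have h2 : ({x, y} : Finset V) = P :=
        eq_of_subset_of_card_le hxyP (by rw [card_pair hxy]; omega)
      rw [← h2] at hP
      refine ⟨G.subgraphOfAdj hadj, Or.inr ⟨x, y, hadj, bridge_of_bar G memE hF hadj hP, rfl⟩, ?_, ?_⟩
      · simp
      · simp
  · rcases final G x y hxy (by
      intro p hp q hq
      have h1 : Generic (fun v => toP (p v)) := (generic_iff _).mpr hp
      have h2 := hGL _ h1 (fun v => toP (q v)) (by
        intro u v huv
        rw [← dist_toC, ← dist_toC (toP (q u))]
        exact (hq u v huv).symm)
      rw [← dist_toC, ← dist_toC (toP (p x))] at h2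
      exact h2) with h | ⟨W, hx, hy, hW1, hW2⟩
    · exact absurd h hadj
    · exact component_of_rrc G ⟨hW1, hW2⟩ hx hy hxy

end Pool.Agent.Results.MP_3dba9c_co.GloballyLinkedComponents
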